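import Pool.Agent.N585.LB.Defs

/-! # LB/3: continuity criterion and removing a countable set (helper862) -/

namespace Pool.Agent.N862.LB

open Cardinal Set Pool.Agent.N585.LB

universe u

theorem contAt_isLE (A B : Type u) [LinearOrder A] [LinearOrder B] (f : A → B)
    (hf : StrictMono f) (hc : ∀ x, ContAt f x) : IsLE f := by
  refine ⟨hf, ?_⟩
  letI tA : TopologicalSpace A := Preorder.topology A
  letI tB : TopologicalSpace B := Preorder.topology B
  haveI oA : OrderTopology A := ⟨rfl⟩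
  haveI oB : OrderTopology B := ⟨rfl⟩
  rw [OrderTopology.continuous_iff]
  intro z
  constructor
  · rw [isOpen_iff_mem_nhds]
    intro x hx
    have hx' : z < f x := hx
    by_cases hn : (Iio x).Nonempty
    · obtain ⟨y, hyx, hy⟩ := (hc x).1 hn z hx'
      refine Filter.mem_of_superset (isOpen_Ioi.mem_nhds (show x ∈ Ioi y from hyx)) ?_
      intro w hw
      exact lt_trans hy (hf hw)
    · refine Filter.mem_of_superset Filter.univ_mem ?_
      intro w _
      have hxw : x ≤ w := by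
        by_contra h
        exact hn ⟨w, not_le.1 h⟩
      exact lt_of_lt_of_le hx' (hf.monotone hxw)
  · rw [isOpen_iff_mem_nhds]
    intro x hx
    have hx' : f x < z := hx
    by_cases hn : (Ioi x).Nonempty
    · obtain ⟨y, hyx, hy⟩ := (hc x).2 hn z hx'
      refine Filter.mem_of_superset (isOpen_Iio.mem_nhds (show x ∈ Iio y from hyx)) ?_
      intro w hw
      exact lt_trans (hf hw) hy
    · refine Filter.mem_of_superset Filter.univ_mem ?_
      intro w _
      have hxw : w ≤ x := by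
        by_contra h
        exact hn ⟨w, not_le.1 h⟩
      exact lt_of_le_of_lt (hf.monotone hxw) hx'

theorem diff_card {A : Type u} (S D : Set A) (hS : #S = ℵ₁) (hD : D.Countable) :
    #(S \ D : Set A) = ℵ₁ := by
  refine le_antisymm ((mk_le_mk_of_subset diff_subset).trans hS.le) ?_
  by_contra h
  have h1 : (S \ D).Countable := (countable_iff_lt_aleph_one _).2 (not_le.1 h)
  have h2 : S.Countable := (h1.union hD).mono (by
    intro x hx
    by_cases hxD : x ∈ D
    · exact Or.inr hxD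
    · exact Or.inl ⟨hx, hxD⟩)
  have h3 := (countable_iff_lt_aleph_one _).1 h2
  rw [hS] at h3
  exact lt_irrefl _ h3

theorem diff_ne {A : Type u} [LinearOrder A] {D : Set A} (hA : InC A) (hD : D.Countable)
    {a b : A} (hab : a < b) : ∃ c, a < c ∧ c < b ∧ c ∉ D := by
  have h := diff_card (Ioo a b) D (hA.dense a b hab) hD
  have h1 : (Ioo a b \ D).Nonempty := by
    rw [nonempty_iff_ne_empty]
    intro h0
    rw [h0] at h
    simp at h
    exact absurd h.symm (aleph_pos 1).ne'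
  obtain ⟨c, hc, hcD⟩ := h1
  exact ⟨c, hc.1, hc.2, hcD⟩

theorem inC_del (A : Type u) [LinearOrder A] (D : Set A) (hA : InC A) (hD : D.Countable) :
    InC ↥(Dᶜ) := by
  refine ⟨?_, ?_, ?_, ?_⟩
  · obtain ⟨a, b, hab⟩ := hA.nontriv
    obtain ⟨c, h1, h2, h3⟩ := diff_ne hA hD hab
    obtain ⟨d, h4, h5, h6⟩ := diff_ne hA hD h1
    exact ⟨⟨d, h6⟩, ⟨c, h3⟩, h5⟩
  · intro a b hab
    have h := diff_card (Ioo (a : A) b) D (hA.dense a b hab) hD
    rw [← h, ← mk_image_eq (f := (Subtype.val : ↥(Dᶜ) → A)) Subtype.val_injective]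
    congr 2
    ext x
    constructor
    · rintro ⟨y, hy, rfl⟩
      exact ⟨⟨hy.1, hy.2⟩, y.2⟩
    · rintro ⟨⟨h1, h2⟩, h3⟩
      exact ⟨⟨x, h3⟩, ⟨h1, h2⟩, rfl⟩
  · intro x hx
    have hx' : (Iio (x : A)).Nonempty := by
      obtain ⟨y, hy⟩ := hx
      exact ⟨y, hy⟩
    obtain ⟨s, hs, hl⟩ := hA.cof x hx'
    choose t h1 h2 h3 using fun n => diff_ne hA hD (hs (Nat.lt_succ_self n))
    refine ⟨fun n => ⟨t n, h3 n⟩, ?_, ?_, ?_⟩
    · refine strictMono_nat_of_lt_succ fun n => ?_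
      show t n < t (n + 1)
      exact (h2 n).trans (h1 (n + 1))
    · rintro _ ⟨n, rfl⟩
      show t n ≤ x
      exact (h2 n).le.trans (hl.1 ⟨n + 1, rfl⟩)
    · intro y hy
      refine hl.2 ?_
      rintro _ ⟨n, rfl⟩
      have : t n ≤ y := hy ⟨n, rfl⟩
      exact (h1 n).le.trans this
  · intro x hx
    have hx' : (Ioi (x : A)).Nonempty := by
      obtain ⟨y, hy⟩ := hx
      exact ⟨y, hy⟩
    obtain ⟨s, hs, hl⟩ := hA.coi x hx'
    choose t h1 h2 h3 using fun n => diff_ne hA hD (hs (Nat.lt_succ_self n))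
    refine ⟨fun n => ⟨t n, h3 n⟩, ?_, ?_, ?_⟩
    · refine strictAnti_nat_of_succ_lt fun n => ?_
      show t (n + 1) < t n
      exact (h2 (n + 1)).trans (h1 n)
    · rintro _ ⟨n, rfl⟩
      show (x : A) ≤ t n
      exact (hl.1 ⟨n + 1, rfl⟩).trans (h1 n).le
    · intro y hy
      refine hl.2 ?_
      rintro _ ⟨n, rfl⟩
      have : (y : A) ≤ t n := hy ⟨n, rfl⟩
      exact this.trans (h2 n).le

theorem isLE_del (A B : Type u) [LinearOrder A] [LinearOrder B] (f : A → B) (D : Set A)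
    (hA : InC A) (hD : D.Countable) (hf : StrictMono f) (hc : ∀ x, x ∉ D → ContAt f x) :
    IsLE (fun x : ↥(Dᶜ) => f x) := by
  refine contAt_isLE _ _ _ (fun x y hxy => hf hxy) fun x => ⟨?_, ?_⟩
  · rintro ⟨w, hw⟩ z hz
    obtain ⟨y, hyx, hy⟩ := (hc x x.2).1 ⟨w, hw⟩ z hz
    obtain ⟨c, h1, h2, h3⟩ := diff_ne hA hD hyx
    exact ⟨⟨c, h3⟩, h2, hy.trans (hf h1)⟩
  · rintro ⟨w, hw⟩ z hz
    obtain ⟨y, hyx, hy⟩ := (hc x x.2).2 ⟨w, hw⟩ z hz
    obtain ⟨c, h1, h2, h3⟩ := diff_ne hA hD hyx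
    exact ⟨⟨c, h3⟩, h1, (hf h2).trans hy⟩

theorem stmDel : StmDel.{u} := ⟨contAt_isLE, inC_del, isLE_del⟩

end Pool.Agent.N862.LB
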