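import Pool.Agent.N862.LB.Del

/-! # LB/5: the least co-countable parts (helper862) -/

namespace Pool.Agent.N862.LB

open Cardinal Set Pool.Agent.N585.LB

universe u

theorem dense_of_inC {A : Type u} [LinearOrder A] (hA : InC A) : DenselyOrdered A := by
  refine ⟨fun a b hab => ?_⟩
  obtain ⟨c, h1, h2, _⟩ := diff_ne hA (countable_empty (α := A)) hab
  exact ⟨c, h1, h2⟩

open Classical in
theorem stmLeast (h1 : StmOmega.{u}) (_h2 : StmDel.{u}) (h3 : StmDisc.{u}) : StmLeast.{u} := by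
  obtain ⟨hIio, hO, _, _, _, hub, hclose⟩ := h1
  intro J hJ A _ hC hcard hccc hemb
  have hdo : ∀ j, DenselyOrdered (A j) := fun j => dense_of_inC (hC j)
  -- equivalences with `ω₁`
  have he : ∀ j, Nonempty (A j ≃ O1.{u}) := fun j => Cardinal.eq.1 ((hcard j).trans hO.symm)
  have e : ∀ j, A j ≃ O1.{u} := fun j => Classical.choice (he j)
  have hseg : ∀ j b, ({x | e j x < b} : Set (A j)).Countable := by
    intro j b
    have : ({x | e j x < b} : Set (A j)) = e j ⁻¹' (Iio b) := rfl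
    rw [this]
    exact (hIio b).preimage (e j).injective
  by_contra hcon
  have hfail : ∀ D : ∀ j, Set (A j), (∀ j, (D j).Countable) →
      ∃ i, ∃ E : Set (A i), E.Countable ∧ ∀ j, ¬ LotsLE ↥((D j)ᶜ) ↥(Eᶜ) := by
    intro D hD
    by_contra h
    refine hcon ⟨D, hD, fun i E hE => ?_⟩
    by_contra h'
    exact h ⟨i, E, hE, fun j hj => h' ⟨j, hj⟩⟩
  choose i E hE hno using fun b : O1.{u} => hfail (fun j => {x | e j x < b}) fun j => hseg j b
  -- the function `Φ`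
  have hPhi : ∀ b : O1.{u}, ∃ y, b < y ∧ ∀ x ∈ E b, e (i b) x < y := by
    intro b
    obtain ⟨y, hy⟩ := hub (insert b (e (i b) '' E b)) (((hE b).image _).insert b)
    exact ⟨y, hy b (mem_insert _ _), fun x hx => hy _ (mem_insert_of_mem _ ⟨x, hx, rfl⟩)⟩
  choose Φ hΦ1 hΦ2 using hPhi
  set K : Set O1.{u} := {b | ∀ c, c < b → Φ c < b} with hK
  have hKun : ∀ w : O1.{u}, ∃ α ∈ K, w < α := by
    intro w
    obtain ⟨α, hα, h⟩ := hclose (fun _ => Φ) w
    exact ⟨α, fun c hc => h c hc 0, hα⟩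
  set Y : ∀ j, Set (A j) := fun j => {x | ∃ b ∈ K, e j x = Φ b} with hY
  have hYun : ∀ j, ¬ (Y j).Countable := by
    intro j hj
    obtain ⟨y, hy⟩ := hub _ (hj.image (e j))
    obtain ⟨b, hb, hyb⟩ := hKun y
    have h4 : Φ b < y := by
      refine hy _ ⟨(e j).symm (Φ b), ⟨b, hb, by simp⟩, by simp⟩
    exact lt_irrefl _ ((hyb.trans (hΦ1 b)).trans h4)
  have hF : ∀ (j : J) (b : O1.{u}) (x : A j), b ∈ K → x ∈ Y j → ¬ e j x < b → ¬ e j x < Φ b := by
    rintro j b x hb ⟨c, hc, hx⟩ h4 h5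
    rw [hx] at h4 h5
    rcases lt_trichotomy c b with h6 | h6 | h6
    · exact h4 (hb c h6)
    · rw [h6] at h5
      exact lt_irrefl _ h5
    · exact lt_irrefl _ (((h5.trans (hc b h6)).trans (hΦ1 c)))
  choose s hs using fun j => hemb j (Y j) (hYun j)
  have g : ∀ j, A (s j) ↪o ↥(Y j) := fun j => Classical.choice (hs j)
  have hgm : ∀ j, StrictMono fun x : A (s j) => ((g j x : ↥(Y j)) : A j) := fun j x y hxy =>
    (g j).strictMono hxy
  set C : ∀ j, Set (A (s j)) := fun j =>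
    {x | ¬ ContAt (fun x : A (s j) => ((g j x : ↥(Y j)) : A j)) x} with hCdef
  have hCc : ∀ j, (C j).Countable := fun j =>
    h3.1 (A (s j)) (A j) (fun x : A (s j) => ((g j x : ↥(Y j)) : A j)) (hccc j) (hgm j)
  -- the starting point
  obtain ⟨w, hw⟩ := hub (⋃ j, e (s j) '' C j) (countable_iUnion fun j => (hCc j).image _)
  -- the functions
  set G : J → O1.{u} → O1.{u} := fun j v =>
    if h : ∃ x : A (s j), e j ((g j x : ↥(Y j)) : A j) = v then e (s j) h.choose else v with hG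
  have hGv : ∀ j (x : A (s j)), G j (e j ((g j x : ↥(Y j)) : A j)) = e (s j) x := by
    intro j x
    have h4 : ∃ x' : A (s j), e j ((g j x' : ↥(Y j)) : A j) = e j ((g j x : ↥(Y j)) : A j) :=
      ⟨x, rfl⟩
    have h5 : G j (e j ((g j x : ↥(Y j)) : A j)) = e (s j) h4.choose := by
      rw [hG]
      simp only [dif_pos h4]
    rw [h5]
    congr 1
    exact (hgm j).injective ((e j).injective h4.choose_spec)
  obtain ⟨φ, hφ⟩ := exists_surjective_nat (Option J)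
  obtain ⟨α, hwα, hα⟩ := hclose (fun n => (φ n).elim Φ G) w
  have hαΦ : ∀ γ, γ < α → Φ γ < α := by
    intro γ hγ
    obtain ⟨n, hn⟩ := hφ none
    have := hα γ hγ n
    simpa [hn] using this
  have hαG : ∀ j γ, γ < α → G j γ < α := by
    intro j γ hγ
    obtain ⟨n, hn⟩ := hφ (some j)
    have := hα γ hγ n
    simpa [hn] using this
  have hαK : α ∈ K := hαΦ
  refine hno α (s (i α)) ?_
  have hval : ∀ x : ↥(({x | e (s (i α)) x < α} : Set (A (s (i α))))ᶜ),
      ((g (i α) (x : A (s (i α))) : ↥(Y (i α))) : A (i α)) ∈ (E α)ᶜ := by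
    intro x hxE
    have h4 : ¬ e (i α) ((g (i α) (x : A (s (i α))) : ↥(Y (i α))) : A (i α)) < α := by
      intro h5
      have h6 := hαG (i α) _ h5
      rw [hGv] at h6
      exact x.2 h6
    exact hF (i α) α _ hαK (g (i α) (x : A (s (i α)))).2 h4 (hΦ2 α _ hxE)
  have hcont : ∀ x : ↥(({x | e (s (i α)) x < α} : Set (A (s (i α))))ᶜ),
      ContAt (fun x : A (s (i α)) => ((g (i α) x : ↥(Y (i α))) : A (i α))) (x : A (s (i α))) := by
    intro x
    by_contra h4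
    have h5 : e (s (i α)) (x : A (s (i α))) < w := hw _ (mem_iUnion.2 ⟨i α, ⟨x, h4, rfl⟩⟩)
    exact x.2 (h5.trans hwα)
  refine ⟨fun x => ⟨_, hval x⟩, contAt_isLE _ _ _ (fun x y hxy => hgm (i α) hxy) fun x => ⟨?_, ?_⟩⟩
  · rintro ⟨v, hv⟩ z hz
    obtain ⟨y, hyx, hy⟩ := (hcont x).1 ⟨v, hv⟩ z hz
    obtain ⟨c, h4, h5, h6⟩ := diff_ne (hC (s (i α))) (hseg (s (i α)) α) hyx
    refine ⟨⟨c, h6⟩, h5, ?_⟩
    show (z : A (i α)) < ((g (i α) c : ↥(Y (i α))) : A (i α))
    exact lt_trans hy (hgm (i α) h4)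
  · rintro ⟨v, hv⟩ z hz
    obtain ⟨y, hyx, hy⟩ := (hcont x).2 ⟨v, hv⟩ z hz
    obtain ⟨c, h4, h5, h6⟩ := diff_ne (hC (s (i α))) (hseg (s (i α)) α) hyx
    refine ⟨⟨c, h6⟩, h4, ?_⟩
    show ((g (i α) c : ↥(Y (i α))) : A (i α)) < (z : A (i α))
    exact lt_trans (hgm (i α) h5) hy

end Pool.Agent.N862.LB
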